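import Mathlib

/-!
# Jets of decaying solutions of `z'''' + k z'' + z = 0`, and uniqueness of jets
-/

set_option autoImplicit false

namespace Pool.Agent.X244.OT

open Real Filter Topology Set

/-- A solution on `[T, ∞)` of `z'''' + k z'' + z = 0` which tends to zero together with `z'` has its
jet at `T` in the stable subspace. -/
theorem stable (z0 z1 z2 z3 : ℝ → ℝ) (k s T : ℝ) (hs0 : 0 < s) (hs2 : s < 2)
    (hk : k = 2 - s ^ 2)
    (h0 : ∀ t, HasDerivAt z0 (z1 t) t) (h1 : ∀ t, HasDerivAt z1 (z2 t) t)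
    (h2 : ∀ t, HasDerivAt z2 (z3 t) t)
    (h3 : ∀ t, T ≤ t → HasDerivAt z3 (-k * z2 t - z0 t) t)
    (b0 : Tendsto z0 atTop (𝓝 0)) (b1 : Tendsto z1 atTop (𝓝 0)) :
    z2 T + s * z1 T + z0 T = 0 ∧ z3 T + s * z2 T + z1 T = 0 := by
  -- the point from which `z, z'` are bounded by one
  obtain ⟨N, hTN, hN0, hN1⟩ : ∃ N, T ≤ N ∧ (∀ t, N ≤ t → |z0 t| ≤ 1) ∧
      (∀ t, N ≤ t → |z1 t| ≤ 1) := by
    have e0 : ∀ᶠ t in atTop, |z0 t| ≤ 1 := by
      have := b0.eventually (Metric.ball_mem_nhds (0 : ℝ) one_pos)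
      filter_upwards [this] with t ht
      rw [dist_zero_right, Real.norm_eq_abs] at ht
      exact ht.le
    have e1 : ∀ᶠ t in atTop, |z1 t| ≤ 1 := by
      have := b1.eventually (Metric.ball_mem_nhds (0 : ℝ) one_pos)
      filter_upwards [this] with t ht
      rw [dist_zero_right, Real.norm_eq_abs] at ht
      exact ht.le
    obtain ⟨N, hN⟩ := eventually_atTop.1 (e0.and (e1.and (eventually_ge_atTop T)))
    exact ⟨N, (hN N le_rfl).2.2, fun t ht => (hN t ht).1, fun t ht => (hN t ht).2.1⟩
  -- the quadratic form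
  set w : ℝ → ℝ := fun t => z2 t + s * z1 t + z0 t with hw
  set v : ℝ → ℝ := fun t => z3 t + s * z2 t + z1 t with hv
  have hwd : ∀ t, HasDerivAt w (v t) t := by
    intro t
    exact ((h2 t).add ((h1 t).const_mul s)).add (h0 t)
  have hvd : ∀ t, T ≤ t → HasDerivAt v (s * v t - w t) t := by
    intro t ht
    have := ((h3 t ht).add ((h2 t).const_mul s)).add (h1 t)
    refine this.congr_deriv ?_
    simp only [hw, hv, hk]
    ring
  set Q : ℝ → ℝ := fun t => v t ^ 2 - s * (w t * v t) + w t ^ 2 with hQ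
  have hQd : ∀ t, T ≤ t → HasDerivAt Q (s * Q t) t := by
    intro t ht
    have a := hwd t
    have b := hvd t ht
    have := ((b.pow 2).sub ((a.mul b).const_mul s)).add (a.pow 2)
    refine this.congr_deriv ?_
    simp only [hQ]
    push_cast
    ring
  have hQ0 : ∀ t, 0 ≤ Q t := by
    intro t
    simp only [hQ]
    nlinarith [sq_nonneg (v t - s * w t / 2), sq_nonneg (w t), mul_nonneg
      (show 0 ≤ 1 - s ^ 2 / 4 by nlinarith) (sq_nonneg (w t))]
  -- exponential growth
  have hgrow : ∀ t, T ≤ t → Q T * exp (s * (t - T)) ≤ Q t := by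
    intro t ht
    have hmono : MonotoneOn (fun u => Q u * exp (-(s * u))) (Ici T) := by
      have hd : ∀ u, T ≤ u → HasDerivAt (fun u => Q u * exp (-(s * u))) 0 u := by
        intro u hu
        have a := hQd u hu
        have b : HasDerivAt (fun u : ℝ => exp (-(s * u))) (exp (-(s * u)) * (-(s * 1))) u :=
          (((hasDerivAt_id u).const_mul s).neg).exp
        refine (a.mul b).congr_deriv ?_
        ring
      refine monotoneOn_of_deriv_nonneg (convex_Ici T)
        (fun u hu => (hd u hu).continuousAt.continuousWithinAt)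
        (fun u hu => ?_) (fun u hu => ?_)
      · rw [interior_Ici] at hu
        exact (hd u (le_of_lt hu)).differentiableAt.differentiableWithinAt
      · rw [interior_Ici] at hu
        rw [(hd u (le_of_lt hu)).deriv]
    have := hmono (self_mem_Ici) (mem_Ici.2 ht) ht
    simp only at this
    have e : exp (s * (t - T)) = exp (-(s * T)) * exp (s * t) := by
      rw [← exp_add]; congr 1; ring
    have e2 : Q t = Q t * exp (-(s * t)) * exp (s * t) := by
      rw [mul_assoc, ← exp_add]; simp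
    rw [e, e2, ← mul_assoc]
    exact mul_le_mul_of_nonneg_right this (exp_pos _).le
  -- polynomial growth
  set y1 : ℝ → ℝ := fun t => z3 t + k * z1 t with hy1
  set y : ℝ → ℝ := fun t => z2 t + k * z0 t with hy
  have hyd : ∀ t, HasDerivAt y (y1 t) t := by
    intro t
    exact (h2 t).add ((h0 t).const_mul k)
  have hy1d : ∀ t, T ≤ t → HasDerivAt y1 (-z0 t) t := by
    intro t ht
    refine ((h3 t ht).add ((h1 t).const_mul k)).congr_deriv ?_
    ring
  set A := |y1 N| with hA
  set B := |y N| with hB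
  have hA0 : 0 ≤ A := abs_nonneg _
  have hB0 : 0 ≤ B := abs_nonneg _
  have g1 : ∀ t, N ≤ t → |y1 t| ≤ A + (t - N) := by
    intro t ht
    have := norm_image_sub_le_of_norm_deriv_le_segment' (f := y1) (f' := fun u => -z0 u)
      (C := 1) (a := N) (b := t)
      (fun u hu => (hy1d u (hTN.trans hu.1)).hasDerivWithinAt)
      (fun u hu => by simpa using hN0 u hu.1) t (right_mem_Icc.2 ht)
    rw [Real.norm_eq_abs, one_mul] at this
    have h := abs_sub_abs_le_abs_sub (y1 t) (y1 N)
    linarith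
  have g0 : ∀ t, N ≤ t → |y t| ≤ B + (A + (t - N)) * (t - N) := by
    intro t ht
    have := norm_image_sub_le_of_norm_deriv_le_segment' (f := y) (f' := y1)
      (C := A + (t - N)) (a := N) (b := t)
      (fun u hu => (hyd u).hasDerivWithinAt)
      (fun u hu => by
        rw [Real.norm_eq_abs]
        refine (g1 u hu.1).trans ?_
        linarith [hu.2]) t (right_mem_Icc.2 ht)
    rw [Real.norm_eq_abs] at this
    have h := abs_sub_abs_le_abs_sub (y t) (y N)
    linarith
  set D := A + B + 1 + |k| with hD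
  have hk0 : 0 ≤ |k| := abs_nonneg k
  have hD1 : 1 ≤ D := by rw [hD]; linarith
  have key : ∀ x : ℝ, 1 ≤ x → Q (N + x) ≤ (2 + s) * ((2 + s) * D) ^ 2 * x ^ 4 := by
    intro x hx
    have hx0 : (0 : ℝ) ≤ x := by linarith
    have hx2 : (1 : ℝ) ≤ x ^ 2 := by nlinarith
    have hNx : N ≤ N + x := by linarith
    have b1' := hN1 _ hNx
    have b0' := hN0 _ hNx
    have c1 := g1 _ hNx
    have c0 := g0 _ hNx
    rw [show N + x - N = x by ring] at c1 c0
    have q3 : |z3 (N + x)| ≤ D * x ^ 2 := by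
      have e : z3 (N + x) = y1 (N + x) - k * z1 (N + x) := by simp only [hy1]; ring
      rw [e]
      refine (abs_sub _ _).trans ?_
      rw [abs_mul]
      have : |k| * |z1 (N + x)| ≤ |k| * 1 := mul_le_mul_of_nonneg_left b1' hk0
      rw [hD]
      nlinarith [mul_nonneg hA0 (show (0 : ℝ) ≤ x ^ 2 - 1 by linarith),
        mul_nonneg hB0 (show (0 : ℝ) ≤ x ^ 2 - 1 by linarith),
        mul_nonneg hk0 (show (0 : ℝ) ≤ x ^ 2 - 1 by linarith)]
    have q2 : |z2 (N + x)| ≤ D * x ^ 2 := by
      have e : z2 (N + x) = y (N + x) - k * z0 (N + x) := by simp only [hy]; ring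
      rw [e]
      refine (abs_sub _ _).trans ?_
      rw [abs_mul]
      have : |k| * |z0 (N + x)| ≤ |k| * 1 := mul_le_mul_of_nonneg_left b0' hk0
      rw [hD]
      nlinarith [mul_nonneg hA0 (show (0 : ℝ) ≤ x ^ 2 - x by nlinarith),
        mul_nonneg hB0 (show (0 : ℝ) ≤ x ^ 2 - 1 by linarith),
        mul_nonneg hk0 (show (0 : ℝ) ≤ x ^ 2 - 1 by linarith)]
    have hDx : (1 : ℝ) ≤ D * x ^ 2 := by nlinarith
    have q1 : |z1 (N + x)| ≤ D * x ^ 2 := b1'.trans hDx
    have q0 : |z0 (N + x)| ≤ D * x ^ 2 := b0'.trans hDx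
    have qw : |w (N + x)| ≤ (2 + s) * D * x ^ 2 := by
      simp only [hw]
      calc |z2 (N + x) + s * z1 (N + x) + z0 (N + x)|
          ≤ |z2 (N + x)| + |s * z1 (N + x)| + |z0 (N + x)| := abs_add_three _ _ _
        _ ≤ D * x ^ 2 + s * (D * x ^ 2) + D * x ^ 2 := by
            rw [abs_mul, abs_of_pos hs0]
            gcongr
        _ = (2 + s) * D * x ^ 2 := by ring
    have qv : |v (N + x)| ≤ (2 + s) * D * x ^ 2 := by
      simp only [hv]
      calc |z3 (N + x) + s * z2 (N + x) + z1 (N + x)|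
          ≤ |z3 (N + x)| + |s * z2 (N + x)| + |z1 (N + x)| := abs_add_three _ _ _
        _ ≤ D * x ^ 2 + s * (D * x ^ 2) + D * x ^ 2 := by
            rw [abs_mul, abs_of_pos hs0]
            gcongr
        _ = (2 + s) * D * x ^ 2 := by ring
    set G := (2 + s) * D * x ^ 2 with hG
    have hG0 : 0 ≤ G := (abs_nonneg _).trans qw
    have r1 : w (N + x) ^ 2 ≤ G ^ 2 := by
      rw [← sq_abs]; exact pow_le_pow_left₀ (abs_nonneg _) qw 2
    have r2 : v (N + x) ^ 2 ≤ G ^ 2 := by
      rw [← sq_abs]; exact pow_le_pow_left₀ (abs_nonneg _) qv 2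
    have r3 : -(w (N + x) * v (N + x)) ≤ G ^ 2 := by
      refine (neg_le_abs _).trans ?_
      rw [abs_mul, sq]
      exact mul_le_mul qw qv (abs_nonneg _) hG0
    have r4 : Q (N + x) ≤ (2 + s) * G ^ 2 := by
      simp only [hQ]
      nlinarith [mul_le_mul_of_nonneg_left r3 hs0.le]
    refine r4.trans (le_of_eq ?_)
    rw [hG]; ring
  -- conclusion: `Q T = 0`
  have hQT : Q T = 0 := by
    by_contra hne
    have hpos : 0 < Q T := lt_of_le_of_ne (hQ0 T) (Ne.symm hne)
    set C := (2 + s) * ((2 + s) * D) ^ 2 with hC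
    have hC0 : 0 ≤ C := by positivity
    have hall : ∀ x : ℝ, 1 ≤ x → Q T * (s ^ 5 * x) ≤ 120 * C := by
      intro x hx
      have hx0 : 0 < x := by linarith
      have a := key x hx
      have b := hgrow (N + x) (by linarith)
      have e : (s * x) ^ 5 / 120 ≤ exp (s * (N + x - T)) := by
        have e1 : (s * x) ^ 5 / (Nat.factorial 5 : ℝ) ≤ exp (s * x) :=
          Real.pow_div_factorial_le_exp (s * x) (by positivity) 5
        have e2 : exp (s * x) ≤ exp (s * (N + x - T)) := by
          apply exp_le_exp.2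
          apply mul_le_mul_of_nonneg_left _ hs0.le
          linarith
        have e3 : (Nat.factorial 5 : ℝ) = 120 := by norm_num [Nat.factorial]
        rw [e3] at e1
        exact e1.trans e2
      have f : Q T * ((s * x) ^ 5 / 120) ≤ C * x ^ 4 :=
        (mul_le_mul_of_nonneg_left e hpos.le).trans (b.trans a)
      have f2 : (Q T * (s ^ 5 * x)) * x ^ 4 ≤ (120 * C) * x ^ 4 := by
        calc (Q T * (s ^ 5 * x)) * x ^ 4 = 120 * (Q T * ((s * x) ^ 5 / 120)) := by ring
          _ ≤ 120 * (C * x ^ 4) := by linarith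
          _ = _ := by ring
      exact le_of_mul_le_mul_right f2 (by positivity)
    have hs5 : 0 < Q T * s ^ 5 := by positivity
    have := hall (120 * C / (Q T * s ^ 5) + 1) (by
      have : 0 ≤ 120 * C / (Q T * s ^ 5) := by positivity
      linarith)
    have e : Q T * (s ^ 5 * (120 * C / (Q T * s ^ 5) + 1)) = 120 * C + Q T * s ^ 5 := by
      field_simp
    rw [e] at this
    linarith
  have hw0 : w T = 0 := by
    simp only [hQ] at hQT
    have h4 : 0 < 1 - s ^ 2 / 4 := by nlinarith
    have : (1 - s ^ 2 / 4) * w T ^ 2 ≤ 0 := by nlinarith [sq_nonneg (v T - s * w T / 2)]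
    have h5 : w T ^ 2 ≤ 0 := by
      by_contra h
      push Not at h
      nlinarith [mul_pos h4 h]
    exact pow_eq_zero_iff (two_ne_zero) |>.1 (le_antisymm h5 (sq_nonneg _))
  have hv0 : v T = 0 := by
    simp only [hQ, hw0] at hQT
    have : v T ^ 2 = 0 := by simpa using hQT
    exact pow_eq_zero_iff (two_ne_zero) |>.1 this
  exact ⟨hw0, hv0⟩

/-- Two solutions with the same jet at `T` are equal. -/
theorem uniq (d0 d1 d2 d3 g : ℝ → ℝ) (k L T : ℝ) (hL : 0 ≤ L)
    (h0 : ∀ t, HasDerivAt d0 (d1 t) t) (h1 : ∀ t, HasDerivAt d1 (d2 t) t)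
    (h2 : ∀ t, HasDerivAt d2 (d3 t) t)
    (h3 : ∀ t, HasDerivAt d3 (-k * d2 t - g t) t) (hg : ∀ t, |g t| ≤ L * |d0 t|)
    (e0 : d0 T = 0) (e1 : d1 T = 0) (e2 : d2 T = 0) (e3 : d3 T = 0) (t : ℝ) : d0 t = 0 := by
  set J : ℝ → ℝ := fun t => d0 t ^ 2 + d1 t ^ 2 + d2 t ^ 2 + d3 t ^ 2 with hJ
  set J' : ℝ → ℝ := fun t => 2 * (d0 t * d1 t + d1 t * d2 t + d2 t * d3 t
    + d3 t * (-k * d2 t - g t)) with hJ'
  have hJd : ∀ t, HasDerivAt J (J' t) t := by
    intro t
    refine (((((h0 t).pow 2).add ((h1 t).pow 2)).add ((h2 t).pow 2)).add ((h3 t).pow 2)).congr_deriv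
      ?_
    simp only [hJ']
    push_cast
    ring
  set K := 3 + |k| + L with hK
  have hk0 : 0 ≤ |k| := abs_nonneg k
  have hJ0 : ∀ t, 0 ≤ J t := fun t => by simp only [hJ]; positivity
  have hbound : ∀ t, |J' t| ≤ K * J t := by
    intro t
    have two : ∀ a b : ℝ, 2 * |a * b| ≤ a ^ 2 + b ^ 2 := by
      intro a b
      rw [abs_mul]
      nlinarith [sq_nonneg (|a| - |b|), sq_abs a, sq_abs b]
    have s1 := two (d0 t) (d1 t)
    have s2 := two (d1 t) (d2 t)
    have s3 := two (d2 t) (d3 t)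
    have s4 := two (d0 t) (d3 t)
    have s5 : 2 * |d3 t * (-k * d2 t - g t)| ≤ |k| * (d2 t ^ 2 + d3 t ^ 2)
        + L * (d0 t ^ 2 + d3 t ^ 2) := by
      have : |d3 t * (-k * d2 t - g t)| ≤ |k| * |d2 t * d3 t| + L * |d0 t * d3 t| := by
        rw [mul_sub]
        refine (abs_sub _ _).trans ?_
        have a1 : |d3 t * (-k * d2 t)| = |k| * |d2 t * d3 t| := by
          rw [← abs_mul, ← abs_neg]; congr 1; ring
        have a2 : |d3 t * g t| ≤ L * |d0 t * d3 t| := by
          rw [abs_mul, abs_mul]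
          nlinarith [mul_le_mul_of_nonneg_left (hg t) (abs_nonneg (d3 t))]
        rw [a1]
        linarith
      nlinarith [mul_le_mul_of_nonneg_left s3 hk0, mul_le_mul_of_nonneg_left s4 hL]
    have tri : |J' t| ≤ 2 * |d0 t * d1 t| + 2 * |d1 t * d2 t| + 2 * |d2 t * d3 t|
        + 2 * |d3 t * (-k * d2 t - g t)| := by
      simp only [hJ']
      rw [abs_mul, abs_of_pos (by norm_num : (0 : ℝ) < 2)]
      have t1 := abs_add_le (d0 t * d1 t + d1 t * d2 t + d2 t * d3 t) (d3 t * (-k * d2 t - g t))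
      have t2 := abs_add_three (d0 t * d1 t) (d1 t * d2 t) (d2 t * d3 t)
      linarith
    simp only [hJ, hK]
    nlinarith [sq_nonneg (d0 t), sq_nonneg (d1 t), sq_nonneg (d2 t), sq_nonneg (d3 t),
      mul_nonneg hk0 (sq_nonneg (d0 t)), mul_nonneg hk0 (sq_nonneg (d1 t)),
      mul_nonneg hL (sq_nonneg (d1 t)), mul_nonneg hL (sq_nonneg (d2 t))]
  have hJT : J T = 0 := by simp [hJ, e0, e1, e2, e3]
  have hJt : J t ≤ 0 := by
    rcases le_total T t with h | h
    · have hanti : Antitone (fun u => J u * exp (-(K * u))) := by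
        have hd : ∀ u, HasDerivAt (fun u => J u * exp (-(K * u)))
            ((J' u - K * J u) * exp (-(K * u))) u := by
          intro u
          have b : HasDerivAt (fun u : ℝ => exp (-(K * u))) (exp (-(K * u)) * (-(K * 1))) u :=
            (((hasDerivAt_id u).const_mul K).neg).exp
          refine ((hJd u).mul b).congr_deriv ?_
          ring
        refine antitone_of_deriv_nonpos (fun u => (hd u).differentiableAt) (fun u => ?_)
        rw [(hd u).deriv]
        have := (le_abs_self _).trans (hbound u)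
        exact mul_nonpos_of_nonpos_of_nonneg (by linarith) (exp_pos _).le
      have := hanti h
      simp only [hJT, zero_mul] at this
      exact le_of_mul_le_mul_right (by simpa using this) (exp_pos (-(K * t)))
    · have hmono : Monotone (fun u => J u * exp (K * u)) := by
        have hd : ∀ u, HasDerivAt (fun u => J u * exp (K * u))
            ((J' u + K * J u) * exp (K * u)) u := by
          intro u
          have b : HasDerivAt (fun u : ℝ => exp (K * u)) (exp (K * u) * (K * 1)) u :=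
            ((hasDerivAt_id u).const_mul K).exp
          refine ((hJd u).mul b).congr_deriv ?_
          ring
        refine monotone_of_deriv_nonneg (fun u => (hd u).differentiableAt) (fun u => ?_)
        rw [(hd u).deriv]
        have := (neg_le_abs _).trans (hbound u)
        exact mul_nonneg (by linarith) (exp_pos _).le
      have := hmono h
      simp only [hJT, zero_mul] at this
      exact le_of_mul_le_mul_right (by simpa using this) (exp_pos (K * t))
  have : d0 t ^ 2 ≤ 0 := by
    simp only [hJ] at hJt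
    nlinarith [sq_nonneg (d0 t), sq_nonneg (d1 t), sq_nonneg (d2 t), sq_nonneg (d3 t)]
  exact pow_eq_zero_iff (two_ne_zero) |>.1 (le_antisymm this (sq_nonneg _))

end Pool.Agent.X244.OT
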