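import Pool.Agent.X244.OT.A

/-!
# One-troughed decaying solutions of `z'''' + k z'' + (z+1)⁺ - ξ (z+1)⁻ - 1 = 0` are even
-/

set_option autoImplicit false

namespace Pool.Agent.X244.OT

open Real Filter Topology Set

/-- the nonlinearity `(x+1)⁺ - ξ (x+1)⁻ - 1` -/
def F (ξ x : ℝ) : ℝ := max (x + 1) 0 - ξ * max (-(x + 1)) 0 - 1

theorem F_ge (ξ x : ℝ) (h : -1 ≤ x) : F ξ x = x := by
  unfold F
  rw [max_eq_left (by linarith), max_eq_right (by linarith)]
  ring

theorem F_le (ξ x : ℝ) (h : x ≤ -1) : F ξ x = ξ * (x + 1) - 1 := by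
  unfold F
  rw [max_eq_right (by linarith), max_eq_left (by linarith)]
  ring

theorem F_lip (ξ x y : ℝ) : |F ξ x - F ξ y| ≤ (1 + |ξ|) * |x - y| := by
  have a : |max (x + 1) 0 - max (y + 1) 0| ≤ |x - y| := by
    refine (abs_max_sub_max_le_abs _ _ _).trans (le_of_eq ?_)
    congr 1; ring
  have b : |max (-(x + 1)) 0 - max (-(y + 1)) 0| ≤ |x - y| := by
    refine (abs_max_sub_max_le_abs _ _ _).trans (le_of_eq ?_)
    rw [← abs_neg]; congr 1; ring
  have e : F ξ x - F ξ y = (max (x + 1) 0 - max (y + 1) 0)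
      - ξ * (max (-(x + 1)) 0 - max (-(y + 1)) 0) := by
    unfold F; ring
  rw [e]
  refine (abs_sub _ _).trans ?_
  rw [abs_mul]
  nlinarith [mul_le_mul_of_nonneg_left b (abs_nonneg ξ)]

/-- `z0` solves the equation, with derivatives `z1, z2, z3` -/
structure Sol (k ξ : ℝ) (z0 z1 z2 z3 : ℝ → ℝ) : Prop where
  h0 : ∀ t, HasDerivAt z0 (z1 t) t
  h1 : ∀ t, HasDerivAt z1 (z2 t) t
  h2 : ∀ t, HasDerivAt z2 (z3 t) t
  h3 : ∀ t, HasDerivAt z3 (-k * z2 t - F ξ (z0 t)) t

theorem Sol.reflect {k ξ : ℝ} {z0 z1 z2 z3 : ℝ → ℝ} (S : Sol k ξ z0 z1 z2 z3) (m : ℝ) :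
    Sol k ξ (fun t => z0 (m - t)) (fun t => -z1 (m - t)) (fun t => z2 (m - t))
      (fun t => -z3 (m - t)) where
  h0 t := (S.h0 (m - t)).comp_const_sub m t
  h1 t := by
    have := ((S.h1 (m - t)).comp_const_sub m t).neg
    rw [neg_neg] at this
    exact this
  h2 t := (S.h2 (m - t)).comp_const_sub m t
  h3 t := by
    have := ((S.h3 (m - t)).comp_const_sub m t).neg
    refine this.congr_deriv ?_
    ring

theorem gt_right (f : ℝ → ℝ) (hf : Continuous f) (hlim : Tendsto f atTop (𝓝 0)) (t₁ t₂ : ℝ)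
    (h12 : t₁ < t₂) (hset : ∀ t, f t = -1 ↔ t = t₁ ∨ t = t₂) (t : ℝ) (ht : t₂ < t) :
    -1 < f t := by
  by_contra hcon
  push Not at hcon
  obtain ⟨u, hu1, hu2⟩ : ∃ u, t ≤ u ∧ -1 < f u := by
    have := (hlim.eventually (lt_mem_nhds (show (-1 : ℝ) < 0 by norm_num))).and
      (eventually_ge_atTop t)
    obtain ⟨u, h⟩ := this.exists
    exact ⟨u, h.2, h.1⟩
  obtain ⟨v, hv, hv2⟩ := intermediate_value_Icc hu1 hf.continuousOn ⟨hcon, hu2.le⟩
  rcases (hset v).1 hv2 with h | h
  · rw [h] at hv; linarith [hv.1]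
  · rw [h] at hv; linarith [hv.1]

theorem deriv_nonneg_left (f : ℝ → ℝ) (f' a b : ℝ) (hab : a < b) (h : HasDerivAt f f' b)
    (hle : ∀ t ∈ Ioo a b, f t ≤ f b) : 0 ≤ f' := by
  have h1 : Tendsto (slope f b) (𝓝[<] b) (𝓝 f') :=
    (hasDerivAt_iff_tendsto_slope.1 h).mono_left (nhdsWithin_mono _ (fun x hx => ne_of_lt hx))
  refine ge_of_tendsto h1 ?_
  filter_upwards [Ioo_mem_nhdsLT hab] with t ht
  rw [slope_def_field]
  exact div_nonneg_of_nonpos (by linarith [hle t ht]) (by linarith [ht.2])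

/-- **One-troughed waves are even.** -/
theorem even_of {k s ξ : ℝ} {z0 z1 z2 z3 : ℝ → ℝ} (hs0 : 0 < s) (hs2 : s < 2)
    (hk : k = 2 - s ^ 2) (hξ : ξ < 1) (S : Sol k ξ z0 z1 z2 z3)
    (bt0 : Tendsto z0 atTop (𝓝 0)) (bt1 : Tendsto z1 atTop (𝓝 0))
    (bb0 : Tendsto z0 atBot (𝓝 0)) (bb1 : Tendsto z1 atBot (𝓝 0))
    (t₁ t₂ : ℝ) (h12 : t₁ < t₂) (hset : ∀ t, z0 t = -1 ↔ t = t₁ ∨ t = t₂) (t : ℝ) :
    z0 (t₁ + t₂ - t) = z0 t := by
  set m := t₁ + t₂ with hm
  have hcont : Continuous z0 := continuous_iff_continuousAt.2 fun t => (S.h0 t).continuousAt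
  have R := S.reflect m
  set r0 : ℝ → ℝ := fun t => z0 (m - t) with hr0
  set r1 : ℝ → ℝ := fun t => -z1 (m - t) with hr1
  set r2 : ℝ → ℝ := fun t => z2 (m - t) with hr2
  set r3 : ℝ → ℝ := fun t => -z3 (m - t) with hr3
  have lim : ∀ c : ℝ, Tendsto (fun t : ℝ => c - t) atTop atBot := fun c =>
    tendsto_atBot_add_const_left _ c tendsto_neg_atTop_atBot |>.congr (fun t => by ring)
  have rt0 : Tendsto r0 atTop (𝓝 0) := bb0.comp (lim m)
  have rt1 : Tendsto r1 atTop (𝓝 0) := by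
    have := (bb1.comp (lim m)).neg
    simpa using this
  have rset : ∀ t, r0 t = -1 ↔ t = t₁ ∨ t = t₂ := by
    intro t
    simp only [hr0]
    rw [hset]
    constructor
    · rintro (h | h)
      · right; linarith
      · left; linarith
    · rintro (h | h)
      · right; linarith
      · left; linarith
  have rcont : Continuous r0 := hcont.comp (continuous_const.sub continuous_id)
  -- outside
  have out2 := gt_right z0 hcont bt0 t₁ t₂ h12 hset
  have out1 : ∀ t, t < t₁ → -1 < z0 t := by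
    intro t ht
    have := gt_right r0 rcont rt0 t₁ t₂ h12 rset (m - t) (by linarith)
    simp only [hr0] at this
    rwa [show m - (m - t) = t by ring] at this
  have z0t1 : z0 t₁ = -1 := (hset t₁).2 (Or.inl rfl)
  have z0t2 : z0 t₂ = -1 := (hset t₂).2 (Or.inr rfl)
  -- inside
  have inside : ∀ t ∈ Ioo t₁ t₂, z0 t < -1 := by
    by_cases hex : ∃ a ∈ Ioo t₁ t₂, z0 a < -1
    · obtain ⟨a, ha, ha1⟩ := hex
      intro b hb
      by_contra hcon
      push Not at hcon
      obtain ⟨v, hv, hv2⟩ := intermediate_value_uIcc (hcont.continuousOn (s := uIcc a b))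
        (mem_uIcc.2 (Or.inl ⟨ha1.le, hcon⟩))
      have hv3 : v ∈ Ioo t₁ t₂ := by
        rcases mem_uIcc.1 hv with h | h
        · exact ⟨ha.1.trans_le h.1, h.2.trans_lt hb.2⟩
        · exact ⟨hb.1.trans_le h.1, h.2.trans_lt ha.2⟩
      rcases (hset v).1 hv2 with h | h
      · rw [h] at hv3; exact lt_irrefl _ hv3.1
      · rw [h] at hv3; exact lt_irrefl _ hv3.2
    · exfalso
      push Not at hex
      have hall : ∀ t, -1 ≤ z0 t := by
        intro t
        rcases lt_trichotomy t t₁ with h | h | h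
        · exact (out1 t h).le
        · rw [h, z0t1]
        · rcases lt_trichotomy t t₂ with h' | h' | h'
          · exact hex t ⟨h, h'⟩
          · rw [h', z0t2]
          · exact (out2 t h').le
      have S0 := S.reflect 0
      have hz1 : ∀ T, z1 T = 0 := by
        intro T
        have a := (stable z0 z1 z2 z3 k s T hs0 hs2 hk S.h0 S.h1 S.h2
          (fun t _ => by
            have := S.h3 t
            rwa [F_ge ξ _ (hall t)] at this) bt0 bt1).1
        have b := (stable _ _ _ _ k s (-T) hs0 hs2 hk S0.h0 S0.h1 S0.h2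
          (fun t _ => by
            have := S0.h3 t
            rwa [F_ge ξ _ (hall _)] at this) (bb0.comp (lim 0))
            (by
              have := (bb1.comp (lim 0)).neg
              simpa using this)).1
        simp only [zero_sub, neg_neg] at b
        have : 2 * s * z1 T = 0 := by linarith
        rcases mul_eq_zero.1 this with h | h
        · linarith
        · exact h
      have hconst : z0 (t₂ + 1) = z0 t₂ :=
        is_const_of_deriv_eq_zero (fun u => (S.h0 u).differentiableAt)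
          (fun u => by rw [(S.h0 u).deriv, hz1]) _ _
      have := (hset (t₂ + 1)).1 (by rw [hconst, z0t2])
      rcases this with h | h <;> linarith
  have insideR : ∀ t ∈ Ioo t₁ t₂, r0 t < -1 := by
    intro t ht
    exact inside (m - t) ⟨by linarith [ht.2], by linarith [ht.1]⟩
  have r0t2 : r0 t₂ = -1 := (rset t₂).2 (Or.inr rfl)
  -- derivatives at the right end
  have d1 : 0 ≤ z1 t₂ := deriv_nonneg_left z0 _ t₁ t₂ h12 (S.h0 t₂)
    (fun t ht => by rw [z0t2]; exact (inside t ht).le)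
  have d2 : 0 ≤ r1 t₂ := deriv_nonneg_left r0 _ t₁ t₂ h12 (R.h0 t₂)
    (fun t ht => by rw [r0t2]; exact (insideR t ht).le)
  -- jets at the right end
  have outR := gt_right r0 rcont rt0 t₁ t₂ h12 rset
  obtain ⟨j2, j3⟩ := stable z0 z1 z2 z3 k s t₂ hs0 hs2 hk S.h0 S.h1 S.h2
    (fun t ht => by
      have := S.h3 t
      rwa [F_ge ξ _ (by
        rcases ht.eq_or_lt with h | h
        · rw [← h, z0t2]
        · exact (out2 t h).le)] at this) bt0 bt1
  obtain ⟨q2, q3⟩ := stable r0 r1 r2 r3 k s t₂ hs0 hs2 hk R.h0 R.h1 R.h2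
    (fun t ht => by
      have := R.h3 t
      rwa [F_ge ξ _ (by
        rcases ht.eq_or_lt with h | h
        · rw [← h, r0t2]
        · exact (outR t h).le)] at this) rt0 rt1
  -- the Lagrange identity
  set V : ℝ → ℝ := fun t => (z3 t - r3 t) * (z3 t + r3 t) + k * ((z2 t - r2 t) * (z2 t + r2 t))
    + ξ * ((z0 t - r0 t) * (z2 t + r2 t)) - ξ * ((z1 t - r1 t) * (z1 t + r1 t))
    + ξ * ((z2 t - r2 t) * (z0 t + r0 t)) - 2 * (1 - ξ) * (z2 t - r2 t) with hV
  have hm2 : m / 2 ≤ t₂ := by rw [hm]; linarith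
  have Vd : ∀ t ∈ Icc (m / 2) t₂, HasDerivAt V 0 t := by
    intro t ht
    have a0 := S.h0 t
    have a1 := S.h1 t
    have a2 := S.h2 t
    have a3 := S.h3 t
    have b0 := R.h0 t
    have b1 := R.h1 t
    have b2 := R.h2 t
    have b3 := R.h3 t
    have ht1 : t₁ < t := by
      have : t₁ < m / 2 := by rw [hm]; linarith
      exact this.trans_le ht.1
    have za : z0 t ≤ -1 := by
      rcases ht.2.eq_or_lt with h | h
      · rw [h, z0t2]
      · exact (inside t ⟨ht1, h⟩).le
    have ra : r0 t ≤ -1 := by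
      rcases ht.2.eq_or_lt with h | h
      · rw [h, r0t2]
      · exact (insideR t ⟨ht1, h⟩).le
    rw [F_le ξ _ za] at a3
    rw [F_le ξ _ ra] at b3
    have c1 := (a3.sub b3).mul (a3.add b3)
    have c2 := ((a2.sub b2).mul (a2.add b2)).const_mul k
    have c3 := ((a0.sub b0).mul (a2.add b2)).const_mul ξ
    have c4 := ((a1.sub b1).mul (a1.add b1)).const_mul ξ
    have c5 := ((a2.sub b2).mul (a0.add b0)).const_mul ξ
    have c6 := (a2.sub b2).const_mul (2 * (1 - ξ))
    refine (((((c1.add c2).add c3).sub c4).add c5).sub c6).congr_deriv ?_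
    simp only [Pi.add_apply, Pi.sub_apply]
    ring
  have V0 : V (m / 2) = 0 := by
    have e : m - m / 2 = m / 2 := by ring
    simp only [hV, hr0, hr1, hr2, hr3, e]
    ring
  have V2 : V t₂ = 0 := by
    have := norm_image_sub_le_of_norm_deriv_le_segment' (f := V) (f' := fun _ => 0)
      (C := 0) (a := m / 2) (b := t₂)
      (fun u hu => (Vd u hu).hasDerivWithinAt)
      (fun u hu => by simp) t₂ (right_mem_Icc.2 hm2)
    rw [zero_mul, V0, sub_zero] at this
    exact norm_eq_zero.1 (le_antisymm this (norm_nonneg _))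
  have alg : (1 - ξ) * ((z1 t₂ - r1 t₂) * (z1 t₂ + r1 t₂)) = 0 := by
    have e2 : z2 t₂ = -s * z1 t₂ + 1 := by rw [z0t2] at j2; linarith
    have e3 : z3 t₂ = -s * z2 t₂ - z1 t₂ := by linarith
    have f2 : r2 t₂ = -s * r1 t₂ + 1 := by rw [r0t2] at q2; linarith
    have f3 : r3 t₂ = -s * r2 t₂ - r1 t₂ := by linarith
    simp only [hV] at V2
    rw [e3, f3, e2, f2, z0t2, r0t2, hk] at V2
    linarith [V2]
  have hO : z1 t₂ = r1 t₂ := by
    rcases mul_eq_zero.1 alg with h | h
    · linarith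
    · rcases mul_eq_zero.1 h with h | h
      · linarith
      · linarith
  have := uniq (fun t => z0 t - r0 t) (fun t => z1 t - r1 t) (fun t => z2 t - r2 t)
    (fun t => z3 t - r3 t) (fun t => F ξ (z0 t) - F ξ (r0 t)) k (1 + |ξ|) t₂ (by positivity)
    (fun t => (S.h0 t).sub (R.h0 t)) (fun t => (S.h1 t).sub (R.h1 t))
    (fun t => (S.h2 t).sub (R.h2 t))
    (fun t => ((S.h3 t).sub (R.h3 t)).congr_deriv (by ring))
    (fun t => F_lip ξ _ _)
    (by simp only [z0t2, r0t2]; ring)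
    (by simp only [hO]; ring)
    (by
      have : z2 t₂ = r2 t₂ := by rw [z0t2] at j2; rw [r0t2] at q2; rw [hO] at j2; linarith
      simp only [this]; ring)
    (by
      have h2 : z2 t₂ = r2 t₂ := by rw [z0t2] at j2; rw [r0t2] at q2; rw [hO] at j2; linarith
      have : z3 t₂ = r3 t₂ := by rw [hO, h2] at j3; linarith
      simp only [this]; ring) t
  simp only [hr0] at this
  linarith

end Pool.Agent.X244.OT
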